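import Pool.Agent.H65.Blocking

set_option autoImplicit false

namespace Pool.Agent.Results.MP_1d2ce7_al.Exists

/-- In every rank `r ≥ 2` there is a reduced word `u` that is a subword of no cyclically
reduced 3P word. -/
theorem result (r : ℕ) (hr : 2 ≤ r) : ∃ u : FreeGroup (Fin r), ∀ w : FreeGroup (Fin r),
    FreeGroup.IsCyclicallyReduced w.toWord →
    (∃ (φ : MulAut (FreeGroup (Fin r))) (v : FreeGroup (Fin r)),
      (∃ a : Fin r, (a, true) ∈ v.toWord ∧ (a, false) ∉ v.toWord) ∧ w = φ v) →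
    ¬ u.toWord <:+: w.toWord :=
  Pool.Agent.H65.Blocking.blocking r hr

end Pool.Agent.Results.MP_1d2ce7_al.Exists
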